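import Pool.Agent.Helper6_Eng.Stmts

/-! ENG module LBM: `b² = Λ b Λ`. -/

set_option autoImplicit false

namespace Pool.Agent.Eng.H6

open Matrix

theorem lbm (hpf : LpfStmt) : LbmStmt := by
  intro ι K _ _ _ m lam hc hm hinj hprod hne hell
  obtain ⟨hF, hS⟩ := hpf ι K m lam hc hinj hprod hne
  set l := ell m lam with hl
  set b := bmat m lam with hb
  have hbdef : ∀ i j, b i j = (l j - if i = j then 1 else 0) / (1 + lam i * lam j) := fun i j => rfl
  have hsym : ∀ i j, 1 + lam i * lam j = 1 + lam j * lam i := fun i j => by ring
  -- row sums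
  have hrow : ∀ i, ∑ j, b i j = 1 := by
    intro i
    have : ∀ j, b i j = l j / (1 + lam i * lam j) -
        (if i = j then 1 / (1 + lam i * lam j) else 0) := by
      intro j
      rw [hbdef]
      split_ifs <;> ring
    rw [Finset.sum_congr rfl (fun j _ => this j), Finset.sum_sub_distrib, hF i,
      Finset.sum_ite_eq Finset.univ i]
    simp
  have hcol : ∀ j, ∑ i, l i * b i j = l j := by
    intro j
    have : ∀ i, l i * b i j = l j * b j i + (if i = j then 0 else 0) := by
      intro i
      rw [hbdef, hbdef, hsym i j]
      by_cases h : i = j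
      · subst h; simp
      · rw [if_neg h, if_neg (Ne.symm h)]
        simp
        ring
    rw [Finset.sum_congr rfl (fun i _ => this i)]
    simp only [ite_self, add_zero]
    rw [← Finset.mul_sum, hrow j, mul_one]
  -- the Sylvester relation
  have hsyl : ∀ i j, b i j + lam i * b i j * lam j = l j - if i = j then 1 else 0 := by
    intro i j
    rw [hbdef]
    have := hne i j
    field_simp
  -- off diagonal entries of the square
  have hoff : ∀ i j, i ≠ j → ∑ k, b i k * b k j = lam i * b i j * lam j := by
    intro i j hij
    have hlij : lam i - lam j ≠ 0 := fun h => hij (hinj (sub_eq_zero.mp h))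
    have h1 : ∑ k, l k / ((1 + lam i * lam k) * (1 + lam j * lam k)) =
        (lam i * (1 + 1 / (1 + lam i * lam i)) - lam j * (1 + 1 / (1 + lam j * lam j))) /
          (lam i - lam j) := by
      rw [eq_div_iff hlij, Finset.sum_mul, ← hF i, ← hF j, Finset.mul_sum, Finset.mul_sum,
        ← Finset.sum_sub_distrib]
      refine Finset.sum_congr rfl fun k _ => ?_
      have h1 := hne i k
      have h2 := hne j k
      rw [div_mul_eq_mul_div, mul_div_assoc', mul_div_assoc', div_sub_div _ _ h1 h2,
        div_eq_div_iff (mul_ne_zero h1 h2) (mul_ne_zero h1 h2)]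
      ring
    have h2 : ∀ k, b i k * b k j = l j * (l k / ((1 + lam i * lam k) * (1 + lam j * lam k))) -
        (if k = j then l j / ((1 + lam i * lam j) * (1 + lam j * lam j)) else 0) -
        (if i = k then l j / ((1 + lam i * lam i) * (1 + lam i * lam j)) else 0) := by
      intro k
      rw [hbdef, hbdef]
      have e1 := hne i k
      have e2 := hne k j
      have e3 := hne j k
      by_cases hkj : k = j
      · subst hkj
        rw [if_neg hij, if_neg hij, if_pos rfl, if_pos rfl]
        have e4 := hne k k
        field_simp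
        ring
      · rw [if_neg hkj, if_neg hkj]
        by_cases hik : i = k
        · subst hik
          rw [if_pos rfl, if_pos rfl]
          have e4 := hne i i
          rw [hsym j i]
          field_simp
          ring
        · rw [if_neg hik, if_neg hik, hsym j k]
          field_simp
          ring
    rw [Finset.sum_congr rfl (fun k _ => h2 k), Finset.sum_sub_distrib, Finset.sum_sub_distrib,
      ← Finset.mul_sum, h1, Finset.sum_ite_eq' Finset.univ j, Finset.sum_ite_eq Finset.univ i]
    simp only [Finset.mem_univ, if_true]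
    rw [hbdef, if_neg hij]
    have hx : (1 + lam i * lam i)⁻¹ * (1 + lam i * lam i) = 1 := inv_mul_cancel₀ (hne i i)
    have hy : (1 + lam j * lam j)⁻¹ * (1 + lam j * lam j) = 1 := inv_mul_cancel₀ (hne j j)
    have hz : (1 + lam i * lam j)⁻¹ * (1 + lam i * lam j) = 1 := inv_mul_cancel₀ (hne i j)
    have hq : (lam i * (1 + 1 / (1 + lam i * lam i)) - lam j * (1 + 1 / (1 + lam j * lam j))) /
        (lam i - lam j) = 1 + (1 - lam i * lam j) *
          ((1 + lam i * lam i)⁻¹ * (1 + lam j * lam j)⁻¹) := by
      rw [div_eq_iff hlij, one_div, one_div]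
      linear_combination (-(lam i * (1 + lam i * lam i)⁻¹)) * hy +
        (lam j * (1 + lam j * lam j)⁻¹) * hx
    rw [hq, div_eq_mul_inv, div_eq_mul_inv, div_eq_mul_inv, mul_inv, mul_inv]
    linear_combination l j * ((-(1 + (1 - lam i * lam j) *
        ((1 + lam i * lam i)⁻¹ * (1 + lam j * lam j)⁻¹))) * hz +
      ((1 + lam j * lam j)⁻¹ * (1 + lam i * lam j)⁻¹ - (1 + lam i * lam j)⁻¹ *
        (1 + lam j * lam j)⁻¹ * (1 + lam j * lam j)) * hx +
      ((1 + lam i * lam i)⁻¹ * (1 + lam i * lam j)⁻¹ - (1 + lam i * lam j)⁻¹) * hy)
  -- T = b² + b + 1 - 1⊗l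
  set T : Matrix ι ι K := fun i j => ∑ k, b i k * b k j + b i j + (if i = j then 1 else 0) - l j
    with hT
  have hTdef : ∀ i j, T i j = ∑ k, b i k * b k j + b i j + (if i = j then 1 else 0) - l j :=
    fun i j => rfl
  have hTd : ∀ i j, i ≠ j → T i j = 0 := by
    intro i j hij
    have := hsyl i j
    rw [if_neg hij] at this
    rw [hTdef, hoff i j hij, if_neg hij]
    linear_combination this
  -- T commutes with b
  have hcomm : ∀ i j, ∑ k, T i k * b k j = ∑ k, b i k * T k j := by
    intro i j
    have hA : ∑ k, (∑ s, b i s * b s k) * b k j = ∑ k, b i k * (∑ s, b k s * b s j) := by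
      have := congrFun (congrFun (Matrix.mul_assoc b b b) i) j
      simpa [Matrix.mul_apply] using this
    have hL : ∑ k, T i k * b k j = ∑ k, (∑ s, b i s * b s k) * b k j + ∑ k, b i k * b k j +
        b i j - l j := by
      have : ∀ k, T i k * b k j = (∑ s, b i s * b s k) * b k j + b i k * b k j +
          (if i = k then b k j else 0) - l k * b k j := by
        intro k
        rw [hTdef]
        split_ifs <;> ring
      rw [Finset.sum_congr rfl (fun k _ => this k), Finset.sum_sub_distrib,
        Finset.sum_add_distrib, Finset.sum_add_distrib, hcol j, Finset.sum_ite_eq Finset.univ i]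
      simp
    have hR : ∑ k, b i k * T k j = ∑ k, b i k * (∑ s, b k s * b s j) + ∑ k, b i k * b k j +
        b i j - l j := by
      have : ∀ k, b i k * T k j = b i k * (∑ s, b k s * b s j) + b i k * b k j +
          (if k = j then b i k else 0) - b i k * l j := by
        intro k
        rw [hTdef]
        split_ifs <;> ring
      rw [Finset.sum_congr rfl (fun k _ => this k), Finset.sum_sub_distrib,
        Finset.sum_add_distrib, Finset.sum_add_distrib, ← Finset.sum_mul, hrow i,
        Finset.sum_ite_eq' Finset.univ j]
      simp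
    rw [hL, hR, hA]
  -- T is scalar
  have hsc : ∀ i j, T i i = T j j := by
    intro i j
    by_cases hij : i = j
    · rw [hij]
    have h1 := hcomm i j
    rw [Finset.sum_eq_single i (fun k _ hk => by rw [hTd i k (Ne.symm hk), zero_mul])
        (by simp),
      Finset.sum_eq_single j (fun k _ hk => by rw [hTd k j hk, mul_zero]) (by simp)] at h1
    have hbij : b i j ≠ 0 := by
      rw [hbdef, if_neg hij, sub_zero]
      exact div_ne_zero (hell j) (hne i j)
    apply mul_right_cancel₀ hbij
    rw [h1, mul_comm]
  have hzero : ∀ i, T i i = 0 := by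
    intro i
    have h1 : ∑ j, T i j = 0 := by
      have : ∀ j, T i j = ∑ k, b i k * b k j + b i j + (if i = j then 1 else 0) - l j :=
        fun j => rfl
      rw [Finset.sum_congr rfl (fun j _ => this j), Finset.sum_sub_distrib,
        Finset.sum_add_distrib, Finset.sum_add_distrib, hS, hrow i, Finset.sum_comm,
        Finset.sum_ite_eq Finset.univ i]
      have : ∑ k, ∑ j, b i k * b k j = 1 := by
        rw [Finset.sum_congr rfl (fun k _ => by rw [← Finset.mul_sum, hrow k, mul_one]), hrow i]
      rw [this]
      simp
      ring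
    rw [Finset.sum_eq_single i (fun k _ hk => hTd i k (Ne.symm hk)) (by simp)] at h1
    exact h1
  -- conclusion
  ext i j
  rw [Matrix.mul_apply, Matrix.mul_diagonal, Matrix.diagonal_mul]
  by_cases hij : i = j
  · subst hij
    have h1 := hzero i
    rw [hTdef, if_pos rfl] at h1
    have h2 := hsyl i i
    rw [if_pos rfl] at h2
    linear_combination h1 - h2
  · exact hoff i j hij

end Pool.Agent.Eng.H6
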