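import Pool.Agent.Helper6_Eng.Stmts

/-! ENG module LPF: partial fractions for the rigid family. -/

set_option autoImplicit false

namespace Pool.Agent.Eng.H6

open Polynomial

section
set_option linter.unusedSectionVars false
variable {ι K : Type} [Fintype ι] [DecidableEq ι] [Field K]

noncomputable def DD (lam : ι → K) : K[X] := ∏ j, (C (lam j) * X + 1)

noncomputable def MM (lam : ι → K) : K[X] := ∏ j, (X - C (lam j))

noncomputable def AA (K : Type) [Field K] (m : ℕ) : K[X] := -(X ^ 2 + 1) + C ((-1) ^ m) * X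

noncomputable def PP (m : ℕ) (lam : ι → K) : K[X] := (X ^ 2 + 2) * DD lam + AA K m * MM lam

theorem key_ring {S : Type} [CommRing S] (x : S) (hx2 : x ^ 2 = -1) (a : ι → S) (m : ℕ)
    (hc : Fintype.card ι = 2 * m + 1) :
    (x ^ 2 + 2) * (∏ j, (a j * x + 1)) +
      (-(x ^ 2 + 1) + (-1) ^ m * x) * (∏ j, (x - a j)) = 0 := by
  have h1 : x ^ (2 * m + 1) * (∏ j, (a j * x + 1)) = ∏ j, (x - a j) := by
    rw [← hc, ← Finset.card_univ, ← Finset.prod_const, ← Finset.prod_mul_distrib]
    refine Finset.prod_congr rfl fun j _ => ?_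
    linear_combination a j * hx2
  have h2 : x ^ (2 * m + 1) = (-1) ^ m * x := by
    rw [pow_succ, pow_mul, hx2]
  have hs : ((-1 : S) ^ m) * (-1) ^ m = 1 := by
    rw [← mul_pow, neg_one_mul, neg_neg, one_pow]
  rw [← h1, h2]
  linear_combination (1 * (∏ j, (a j * x + 1)) - (-1) ^ m * x * (∏ j, (a j * x + 1)) +
    ((-1) ^ m * (-1) ^ m) * (∏ j, (a j * x + 1))) * hx2 - (∏ j, (a j * x + 1)) * hs

theorem key_dvd (m : ℕ) (lam : ι → K) (hc : Fintype.card ι = 2 * m + 1) :
    (X ^ 2 + 1 : K[X]) ∣ PP m lam := by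
  rw [← Ideal.mem_span_singleton, ← Ideal.Quotient.eq_zero_iff_mem]
  have hx2 : (Ideal.Quotient.mk (Ideal.span {(X ^ 2 + 1 : K[X])}) X) ^ 2 = -1 := by
    have : Ideal.Quotient.mk (Ideal.span {(X ^ 2 + 1 : K[X])}) (X ^ 2 + 1) = 0 := by
      rw [Ideal.Quotient.eq_zero_iff_mem]
      exact Ideal.subset_span rfl
    rw [map_add, map_pow, map_one] at this
    linear_combination this
  have h := key_ring _ hx2 (fun j => Ideal.Quotient.mk (Ideal.span {(X ^ 2 + 1 : K[X])})
    (C (lam j))) m hc
  rw [← h, PP, AA, DD, MM]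
  simp only [map_add, map_mul, map_pow, map_prod, map_sub, map_neg, map_one, map_ofNat]

theorem DD_natDegree (lam : ι → K) (h0 : ∀ i, lam i ≠ 0) :
    (DD lam).natDegree = Fintype.card ι := by
  rw [DD, natDegree_prod]
  · rw [Finset.sum_congr rfl (g := fun _ => 1)]
    · simp
    · intro j _
      have : (C (lam j) * X + 1 : K[X]) = C (lam j) * X + C 1 := by simp
      rw [this, natDegree_linear (h0 j)]
  · intro j _ hj
    have : (C (lam j) * X + 1 : K[X]).coeff 0 = 1 := by simp
    rw [hj] at this
    simp at this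

theorem DD_lead (lam : ι → K) (h0 : ∀ i, lam i ≠ 0) (h1 : ∏ i, lam i = 1) :
    (DD lam).leadingCoeff = 1 := by
  rw [DD, leadingCoeff_prod, ← h1]
  refine Finset.prod_congr rfl fun j _ => ?_
  have : (C (lam j) * X + 1 : K[X]) = C (lam j) * X + C 1 := by simp
  rw [this, leadingCoeff_linear (h0 j)]

theorem MM_monic (lam : ι → K) : (MM lam).Monic := monic_prod_X_sub_C _ _

theorem MM_natDegree (lam : ι → K) : (MM lam).natDegree = Fintype.card ι := by
  rw [MM, natDegree_finsetProd_X_sub_C_eq_card]
  rfl

theorem PP_degree (m : ℕ) (lam : ι → K) (hc : Fintype.card ι = 2 * m + 1)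
    (h0 : ∀ i, lam i ≠ 0) (h1 : ∏ i, lam i = 1) :
    (PP m lam).degree < ((2 * m + 1 + 2 : ℕ) : WithBot ℕ) := by
  have hD0 : DD lam ≠ 0 := by
    intro h
    have := DD_lead lam h0 h1
    rw [h] at this
    simp at this
  have hdD : (DD lam).degree = ((2 * m + 1 : ℕ) : WithBot ℕ) := by
    rw [degree_eq_natDegree hD0, DD_natDegree lam h0, hc]
  have hdM : (MM lam).degree = ((2 * m + 1 : ℕ) : WithBot ℕ) := by
    rw [degree_eq_natDegree (MM_monic lam).ne_zero, MM_natDegree, hc]
  have hsub : (DD lam - MM lam).degree < ((2 * m + 1 : ℕ) : WithBot ℕ) := by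
    rw [← hdD]
    exact degree_sub_lt_left (by rw [hdD, hdM]) hD0 (by rw [DD_lead lam h0 h1, (MM_monic lam).leadingCoeff])
  have e : PP m lam = X ^ 2 * (DD lam - MM lam) +
      (C 2 * DD lam + (C (-1) * MM lam + C ((-1) ^ m) * (X * MM lam))) := by
    simp only [PP, AA, map_neg, map_one]
    have : (C (2 : K) : K[X]) = 2 := map_ofNat C 2
    rw [this]
    ring
  rw [e]
  have hlt : ∀ a b : K[X], a.degree < ((2 * m + 1 + 2 : ℕ) : WithBot ℕ) →
      b.degree < ((2 * m + 1 + 2 : ℕ) : WithBot ℕ) →
      (a + b).degree < ((2 * m + 1 + 2 : ℕ) : WithBot ℕ) := fun a b ha hb =>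
    lt_of_le_of_lt (degree_add_le a b) (max_lt ha hb)
  have hC : ∀ (c : K) (p : K[X]), p.degree < ((2 * m + 1 + 2 : ℕ) : WithBot ℕ) →
      (C c * p).degree < ((2 * m + 1 + 2 : ℕ) : WithBot ℕ) := fun c p hp => by
    refine lt_of_le_of_lt ?_ hp
    rw [degree_mul]
    calc (C c).degree + p.degree ≤ 0 + p.degree := by gcongr; exact degree_C_le
      _ = p.degree := zero_add _
  have hXM : (X * MM lam).degree < ((2 * m + 1 + 2 : ℕ) : WithBot ℕ) := by
    rw [degree_mul, degree_X, hdM]
    norm_cast
    omega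
  refine hlt _ _ ?_ (hlt _ _ (hC _ _ ?_) (hlt _ _ (hC _ _ ?_) (hC _ _ hXM)))
  · rw [degree_mul, degree_X_pow, Nat.cast_add, add_comm ((2 * m + 1 : ℕ) : WithBot ℕ)]
    by_cases hz : DD lam - MM lam = 0
    · rw [hz, degree_zero]
      simp only [WithBot.add_bot]
      exact WithBot.bot_lt_coe _
    · rw [degree_eq_natDegree hz] at hsub ⊢
      norm_cast at hsub ⊢
      omega
  · rw [hdD]; norm_cast; omega
  · rw [hdM]; norm_cast; omega

theorem lpf : LpfStmt := by
  intro ι K _ _ _ m lam hc hinj hprod hne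
  have h0 : ∀ i, lam i ≠ 0 := by
    intro i hi
    have : ∏ i, lam i = 0 := Finset.prod_eq_zero (Finset.mem_univ i) hi
    rw [hprod] at this
    exact one_ne_zero this
  have hcpos : 0 < Fintype.card ι := by omega
  obtain ⟨N, hN⟩ := key_dvd m lam hc
  have hmon : (X ^ 2 + 1 : K[X]).Monic := by
    have : (X ^ 2 + 1 : K[X]) = X ^ 2 + C 1 := by simp
    rw [this]
    exact monic_X_pow_add_C _ (by norm_num)
  have hdeg2 : (X ^ 2 + 1 : K[X]).natDegree = 2 := by
    have : (X ^ 2 + 1 : K[X]) = X ^ 2 + C 1 := by simp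
    rw [this, natDegree_X_pow_add_C]
  have hNdeg : N.degree < ((2 * m + 1 : ℕ) : WithBot ℕ) := by
    by_cases hz : N = 0
    · rw [hz, degree_zero]; exact WithBot.bot_lt_coe _
    · have hP := PP_degree m lam hc h0 hprod
      rw [hN, degree_mul, degree_eq_natDegree hmon.ne_zero, hdeg2, degree_eq_natDegree hz] at hP
      rw [degree_eq_natDegree hz]
      norm_cast at hP ⊢
      omega
  -- the Lagrange form
  have hLag : N = ∑ j, C (ell m lam j) * ∏ k ∈ Finset.univ.erase j, (C (lam k) * X + 1) := by
    refine eq_of_degrees_lt_of_eval_index_eq (s := Finset.univ) (v := fun j => -(lam j)⁻¹)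
      ?_ ?_ ?_ ?_
    · intro a _ b _ hab
      have : (lam a)⁻¹ = (lam b)⁻¹ := by simpa using hab
      exact hinj (inv_injective this)
    · rw [Finset.card_univ, hc]; exact hNdeg
    · rw [Finset.card_univ, hc]
      refine lt_of_le_of_lt (degree_sum_le _ _) ?_
      rw [Finset.sup_lt_iff (WithBot.bot_lt_coe _)]
      intro j _
      refine lt_of_le_of_lt (b := ((2 * m : ℕ) : WithBot ℕ)) ?_ (by norm_cast; omega)
      rw [degree_mul]
      have h1 : (∏ k ∈ Finset.univ.erase j, (C (lam k) * X + 1 : K[X])).degree ≤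
          ((2 * m : ℕ) : WithBot ℕ) := by
        refine degree_le_of_natDegree_le ?_
        refine (natDegree_prod_le _ _).trans ?_
        refine (Finset.sum_le_card_nsmul _ _ 1 ?_).trans ?_
        · intro k _
          have : (C (lam k) * X + 1 : K[X]) = C (lam k) * X + C 1 := by simp
          rw [this]
          exact natDegree_linear_le
        · rw [Finset.card_erase_of_mem (Finset.mem_univ j), Finset.card_univ, hc]
          simp
      calc (C (ell m lam j)).degree + _ ≤ 0 + ((2 * m : ℕ) : WithBot ℕ) := by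
            gcongr; exact degree_C_le
        _ = _ := zero_add _
    · intro j _
      have hsum : eval (-(lam j)⁻¹)
          (∑ j, C (ell m lam j) * ∏ k ∈ Finset.univ.erase j, (C (lam k) * X + 1)) =
          ell m lam j * ∏ k ∈ Finset.univ.erase j, (lam k * (-(lam j)⁻¹) + 1) := by
        rw [eval_finsetSum, Finset.sum_eq_single j]
        · simp [eval_prod]
        · intro b _ hb
          rw [eval_mul, eval_prod]
          have : j ∈ Finset.univ.erase b := by simp [Ne.symm hb]
          rw [Finset.prod_eq_zero this]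
          · simp
          · simp [h0 j]
        · simp
      rw [hsum]
      set v := -(lam j)⁻¹ with hv
      have hl := h0 j
      have hlj : 1 + lam j * lam j ≠ 0 := hne j j
      have hvv : v ^ 2 + 1 ≠ 0 := by
        rw [hv]
        intro h
        apply hlj
        have : (lam j) ^ 2 * ((-(lam j)⁻¹) ^ 2 + 1) = 1 + lam j * lam j := by
          field_simp
        rw [← this, h, mul_zero]
      have hE := congrArg (eval v) hN
      have hD0 : eval v (DD lam) = 0 := by
        rw [DD, eval_prod]
        refine Finset.prod_eq_zero (Finset.mem_univ j) ?_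
        simp [hv, hl]
      have hMv : eval v (MM lam) = (v - lam j) * ∏ k ∈ Finset.univ.erase j, (v - lam k) := by
        rw [MM, eval_prod, ← Finset.mul_prod_erase _ _ (Finset.mem_univ j)]
        simp
      rw [PP, eval_add, eval_mul, hD0, mul_zero, zero_add, eval_mul, hMv, eval_mul] at hE
      have hAv : eval v (AA K m) = -(v ^ 2 + 1) + (-1) ^ m * v := by simp [AA]
      have hX : eval v (X ^ 2 + 1 : K[X]) = v ^ 2 + 1 := by simp
      rw [hAv, hX] at hE
      -- products
      have hcard : (Finset.univ.erase j).card = 2 * m := by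
        rw [Finset.card_erase_of_mem (Finset.mem_univ j), Finset.card_univ, hc]
        simp
      have hprod1 : ∏ k ∈ Finset.univ.erase j, (v - lam k) =
          (lam j)⁻¹ ^ (2 * m) * ∏ k ∈ Finset.univ.erase j, (1 + lam j * lam k) := by
        rw [← hcard, ← Finset.prod_const, ← Finset.prod_mul_distrib]
        have : ∀ k, v - lam k = -((lam j)⁻¹ * (1 + lam j * lam k)) := by
          intro k
          rw [hv]
          field_simp
          ring
        rw [Finset.prod_congr rfl (fun k _ => this k), Finset.prod_neg, hcard]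
        simp
      have hprod2 : ell m lam j * ∏ k ∈ Finset.univ.erase j, (lam k * v + 1) =
          (lam j + (lam j)⁻¹ + (-1) ^ m) * ((lam j)⁻¹ ^ (2 * m) *
            ∏ k ∈ Finset.univ.erase j, (1 + lam j * lam k)) := by
        rw [ell, mul_assoc, ← Finset.prod_mul_distrib, ← hcard, ← Finset.prod_const,
          ← Finset.prod_mul_distrib]
        congr 1
        refine Finset.prod_congr rfl fun k hk => ?_
        have hjk : lam j - lam k ≠ 0 := by
          intro h
          exact (Finset.ne_of_mem_erase hk) (hinj (sub_eq_zero.mp h)).symm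
        rw [hv]
        field_simp
        ring
      rw [hprod2]
      rw [hprod1] at hE
      have hN' : eval v N = (-(v ^ 2 + 1) + (-1) ^ m * v) * (v - lam j) / (v ^ 2 + 1) *
          ((lam j)⁻¹ ^ (2 * m) * ∏ k ∈ Finset.univ.erase j, (1 + lam j * lam k)) := by
        field_simp
        linear_combination -hE
      rw [hN']
      congr 1
      rw [div_eq_iff hvv, hv]
      field_simp
      ring
  -- evaluation
  have hfac : ∀ x : K, (∀ k, lam k * x + 1 ≠ 0) →
      eval x N = eval x (DD lam) * ∑ j, ell m lam j / (1 + x * lam j) := by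
    intro x hx
    rw [hLag, eval_finsetSum, Finset.mul_sum]
    refine Finset.sum_congr rfl fun j _ => ?_
    have hxj : 1 + x * lam j ≠ 0 := by
      have := hx j
      rwa [mul_comm, add_comm] at this
    rw [eval_mul, eval_C, DD, eval_prod, eval_prod, ← Finset.mul_prod_erase _ _ (Finset.mem_univ j)]
    have e1 : eval x (C (lam j) * X + 1) = 1 + x * lam j := by
      simp; ring
    rw [e1]
    field_simp
  constructor
  · intro i
    have hx : ∀ k, lam k * lam i + 1 ≠ 0 := fun k => by
      have := hne k i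
      rwa [add_comm] at this
    have h1 := hfac (lam i) hx
    have hE := congrArg (eval (lam i)) hN
    have hM0 : eval (lam i) (MM lam) = 0 := by
      rw [MM, eval_prod]
      exact Finset.prod_eq_zero (Finset.mem_univ i) (by simp)
    rw [PP, eval_add, eval_mul, eval_mul, hM0, mul_zero, add_zero, eval_mul, h1] at hE
    have hDne : eval (lam i) (DD lam) ≠ 0 := by
      rw [DD, eval_prod, Finset.prod_ne_zero_iff]
      intro k _
      simpa using hx k
    have e1 : eval (lam i) (X ^ 2 + 2 : K[X]) = lam i ^ 2 + 2 := by simp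
    have e2 : eval (lam i) (X ^ 2 + 1 : K[X]) = lam i ^ 2 + 1 := by simp
    rw [e1, e2] at hE
    have hii := hne i i
    have h3 : (lam i ^ 2 + 2) = (lam i ^ 2 + 1) * ∑ j, ell m lam j / (1 + lam i * lam j) := by
      apply mul_right_cancel₀ hDne
      linear_combination hE
    have h4 : ∑ j, ell m lam j / (1 + lam i * lam j) = (lam i ^ 2 + 2) / (1 + lam i * lam i) := by
      rw [eq_div_iff hii, h3]
      ring
    rw [h4, div_eq_iff hii, add_mul, one_mul, one_div, inv_mul_cancel₀ hii]
    ring
  · have h1 := hfac 0 (by intro k; simp)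
    have hE := congrArg (eval 0) hN
    have hD1 : eval 0 (DD lam) = 1 := by
      rw [DD, eval_prod]
      simp
    have hM1 : eval 0 (MM lam) = -1 := by
      rw [MM, eval_prod]
      simp only [eval_sub, eval_X, eval_C, zero_sub]
      rw [Finset.prod_neg, Finset.card_univ, hc, hprod]
      rw [Odd.neg_one_pow ⟨m, rfl⟩, mul_one]
    rw [PP, eval_add, eval_mul, eval_mul, hD1, hM1, eval_mul, h1, hD1] at hE
    simp [AA] at hE
    linear_combination -hE

end

end Pool.Agent.Eng.H6
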