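import Pool.Agent.Helper6_Eng.Stmts

/-! ENG module LS3: `4` divides the Engel period of `SL(3,2)`. -/

set_option autoImplicit false

namespace Pool.Agent.Eng.H6

open Matrix

abbrev S3 : Type := SpecialLinearGroup (Fin 3) (ZMod 2)

def x0 : S3 := ⟨!![1, 0, 0; 1, 1, 1; 1, 0, 1], by decide⟩
def xi : S3 := ⟨!![1, 0, 0; 0, 1, 1; 1, 0, 1], by decide⟩
def y0 : S3 := ⟨!![1, 1, 0; 0, 1, 1; 0, 0, 1], by decide⟩
def yi : S3 := ⟨!![1, 1, 1; 0, 1, 1; 0, 0, 1], by decide⟩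

theorem x0_inv : x0⁻¹ = xi := inv_eq_of_mul_eq_one_right (by decide)
theorem y0_inv : y0⁻¹ = yi := inv_eq_of_mul_eq_one_right (by decide)

theorem e1 : eng y0 x0 = xi * yi * x0 * y0 := by
  rw [eng, x0_inv, y0_inv]

def x1 : S3 := xi * yi * x0 * y0
def x1i : S3 := yi * xi * y0 * x0

theorem x1_inv : x1⁻¹ = x1i := inv_eq_of_mul_eq_one_right (by decide)

theorem e2 : eng y0 (eng y0 x0) = y0⁻¹ * x0 * y0 := by
  rw [e1]
  change eng y0 x1 = _
  rw [eng, x1_inv, y0_inv]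
  decide

theorem y4 : y0 ^ 4 = 1 := by decide

theorem center_one (g : S3) (hg : g ∈ Subgroup.center S3) : g = 1 := by
  rw [Matrix.SpecialLinearGroup.mem_center_iff] at hg
  obtain ⟨r, hr, h⟩ := hg
  have hr0 : r = 0 ∨ r = 1 := (by decide : ∀ r : ZMod 2, r = 0 ∨ r = 1) r
  rcases hr0 with h0 | h0
  · subst h0
    simp at hr
  · subst h0
    apply Subtype.ext
    rw [← h]
    simp

theorem ls3 (hf : FigStmt) : Ls3Stmt := by
  refine hf S3 (Subgroup.center S3) x0 y0 4 e2 ?_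
  intro d _ hd
  have h := center_one _ hd
  have hd' : x0 * y0 ^ (d % 4) = y0 ^ (d % 4) * x0 := by
    have hy : y0 ^ d = y0 ^ (d % 4) := by
      conv_lhs => rw [← Nat.mod_add_div d 4, pow_add, pow_mul, y4, one_pow, mul_one]
    rw [hy] at h
    have h2 : x0 * y0 ^ (d % 4) * x0⁻¹ = y0 ^ (d % 4) := mul_inv_eq_one.mp h
    exact mul_inv_eq_iff_eq_mul.mp h2
  have hlt : d % 4 < 4 := Nat.mod_lt _ (by norm_num)
  apply Nat.dvd_of_mod_eq_zero
  generalize d % 4 = e at hd' hlt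
  interval_cases e
  · rfl
  · exact absurd hd' (by decide)
  · exact absurd hd' (by decide)
  · exact absurd hd' (by decide)

end Pool.Agent.Eng.H6
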