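import Pool.Agent.Helper6_Eng.AllSp
import Pool.Agent.Helper6_Eng.Lpf
import Pool.Agent.Helper6_Eng.Lbm
import Pool.Agent.Helper6_Eng.Ls3
import Pool.Agent.Helper12_Eng.LRE
import Pool.Agent.Helper26_Eng.Lodd
import Pool.Agent.Helper26_Eng.Lss
import Pool.Agent.Helper40_Eng.Lev
import Pool.Agent.Helper50_Eng.Ltm
import Pool.Agent.Helper54_Eng.Lbc
import Pool.Agent.Helper8_Eng.Lra
import Pool.Agent.Helper8_Eng.Lrk
import Pool.Agent.Helper8_Eng.Lri
import Pool.Agent.Helper91_Eng.Lie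
import Pool.Agent.Helper91_Eng.Ltn

/-! Squad ENG: assembly of the modules (linear groups). -/

set_option autoImplicit false

namespace Pool.Agent.Eng

theorem a_ltr : LtrStmt := H9.ltr
theorem a_lre : LreStmt := H12.lre a_gh
theorem a_lbm : LbmStmt := H6.lbm H6.lpf
theorem a_lrk : LrkStmt := H8.lrk a_lbm
theorem a_lri : LriStmt := H8.lri a_lrk a_br a_ltr H18.pdInj
theorem a_lev : LevStmt := H40.lev a_ab
theorem a_ltm : LtmStmt := H50.ltm a_lre a_lev a_ltr
theorem a_ls3 : Ls3Stmt := H6.ls3 a_fig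
theorem a_lbc : LbcStmt := H54.lbc H18.pdCen
theorem a_lodd : LoddStmt :=
  H26.lodd a_lift a_ltr H26.lss a_lre H26.lir a_lri H91.lie a_esp a_ssl
theorem a_ltwo : LtwoStmt :=
  H26.ltwo a_lift a_ltr H26.lss a_lre H26.lir a_lev H91.ltn a_ltm
theorem mainSl : MainSlStmt :=
  H81.msl H18.fexp a_lift H4.gun a_uni a_tsp a_ssl a_ls3 a_lbc a_lodd a_ltwo

end Pool.Agent.Eng
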