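import Pool.Agent.Helper6_Eng.Stmts

/-! ENG module DTW: the 2-part for `PSp`, `q` odd. -/

set_option autoImplicit false

namespace Pool.Agent.Eng.H6

theorem dtw (hl : LiftStmt) (hg : GtwStmt) (hd : DglStmt) (he : DevStmt) : DtwStmt := by
  intro F _ _ n k h2 hn hy
  obtain ⟨g, c, hgc, hgk⟩ := hl (Sp n F) (Subgroup.center (Sp n F)) 2 k Nat.prime_two hy
  obtain ⟨h, e, hhe, hh⟩ := hg F c k n g h2 hn hgc hgk
  intro d hd0 hlaw
  have hev : Even d := (he F n h2 hn d hd0 hlaw).imp fun a ha => by omega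
  have hcop : Nat.Coprime (2 ^ e) (Nat.card F) := by
    apply Nat.Coprime.pow_left
    rw [Nat.Prime.coprime_iff_not_dvd Nat.prime_two]
    intro hdvd
    apply h2
    obtain ⟨a, ha⟩ := hdvd
    have := Fintype.ofFinite F
    obtain ⟨p, hp⟩ := CharP.exists F
    have := hp
    obtain ⟨m, hpp, hm⟩ := FiniteField.card F p
    rw [Nat.card_eq_fintype_card, hm] at ha
    have h2p : 2 ∣ p := Nat.prime_two.dvd_of_dvd_pow (ha ▸ Dvd.intro _ rfl)
    have : p = 2 := ((Nat.prime_dvd_prime_iff_eq Nat.prime_two hpp).mp h2p).symm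
    have h0 := CharP.cast_eq_zero F p
    rw [this] at h0
    exact_mod_cast h0
  exact hh d hd0 hev (hd F n (2 ^ e) h2 (by omega) h hhe hcop d hlaw hev)

end Pool.Agent.Eng.H6
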