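import Pool.Agent.Helper6_Eng.Stmts

/-! ENG module SAB: abelian subgroup criterion for `PSp`. -/

set_option autoImplicit false

namespace Pool.Agent.Eng.H6

theorem eng_equiv {G H : Type} [Group G] [Group H] (e : G ≃* H) (y x : G) :
    e (eng y x) = eng (e y) (e x) := by
  simp [eng]

theorem iter_equiv {G H : Type} [Group G] [Group H] (e : G ≃* H) (y x : G) (r : ℕ) :
    e ((eng y)^[r] x) = (eng (e y))^[r] (e x) := by
  induction r with
  | zero => rfl
  | succ n ih => rw [Function.iterate_succ_apply', Function.iterate_succ_apply', eng_equiv, ih]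

theorem law_equiv {G H : Type} [Group G] [Group H] (e : G ≃* H) (d : ℕ) (h : Law H d) :
    Law G d := by
  obtain ⟨r, hr⟩ := h
  refine ⟨r, fun x y => ?_⟩
  apply e.injective
  rw [iter_equiv, iter_equiv]
  exact hr _ _

theorem quot_equiv {G H : Type} [Group G] [Group H] (e : G ≃* H) :
    Nonempty ((G ⧸ Subgroup.center G) ≃* (H ⧸ Subgroup.center H)) := by
  refine ⟨QuotientGroup.congr (Subgroup.center G) (Subgroup.center H) e ?_⟩
  ext h
  constructor
  · rintro ⟨g, hg, rfl⟩
    rw [Subgroup.mem_center_iff]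
    intro k
    obtain ⟨k', rfl⟩ := e.surjective k
    have hg' : g ∈ Subgroup.center G := hg
    have := Subgroup.mem_center_iff.mp hg' k'
    change e k' * e g = e g * e k'
    rw [← map_mul, this, map_mul]
  · intro hh
    refine ⟨e.symm h, ?_, by simp⟩
    change e.symm h ∈ Subgroup.center G
    rw [Subgroup.mem_center_iff]
    intro k
    apply e.injective
    rw [map_mul, map_mul, MulEquiv.apply_symm_apply]
    exact Subgroup.mem_center_iff.mp hh (e k)

theorem sab (hab : AbStmt) (htr : SpTransStmt) (hcen : SpCenterStmt) : SpAbStmt := by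
  intro F V _ _ _ _ ω n hω hn M _ f y T hf hy hM hT d hd
  obtain ⟨φ⟩ := htr F V ω n hω hn
  obtain ⟨ψ⟩ := quot_equiv φ
  have hlaw : Law (↥(SpV ω) ⧸ Subgroup.center ↥(SpV ω)) d := law_equiv ψ d hd
  refine hab ↥(SpV ω) (Subgroup.center ↥(SpV ω)) M (f.codRestrict (SpV ω) hf) ⟨y, hy⟩ T ?_ ?_ d
    hlaw
  · intro m hm
    exact hM m (hcen F V ω hω _ hm)
  · intro m
    apply Subtype.ext
    exact hT m

end Pool.Agent.Eng.H6
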