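import Pool.Agent.Helper6_Eng.Final
import Pool.Agent.Helper6_Eng.Sab
import Pool.Agent.Helper6_Eng.Dtw
import Pool.Agent.Helper1_Eng.Dev
import Pool.Agent.Helper1_Eng.Esp
import Pool.Agent.Helper4_Eng.Dns
import Pool.Agent.Helper4_Eng.Ghx
import Pool.Agent.Helper4_Eng.Gex
import Pool.Agent.Helper4_Eng.Grt
import Pool.Agent.Helper4_Eng.Gtw
import Pool.Agent.Helper7_Eng.Dgl
import Pool.Agent.Helper7_Eng.Tfe
import Pool.Agent.Helper9_Eng.Lift
import Pool.Agent.Helper9_Eng.Scen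
import Pool.Agent.Helper12_Eng.UB
import Pool.Agent.Helper12_Eng.GOD
import Pool.Agent.Helper18_Eng.F
import Pool.Agent.Helper39_Eng.Sbas
import Pool.Agent.Helper39_Eng.Str
import Pool.Agent.Helper40_Eng.Ssl
import Pool.Agent.Helper42_Eng.Tsp
import Pool.Agent.Helper47_Eng.Eb
import Pool.Agent.Helper47_Eng.Fgh
import Pool.Agent.Helper53_Eng.Fgrp
import Pool.Agent.Helper54_Eng.Smon
import Pool.Agent.Helper54_Eng.Tnt
import Pool.Agent.Helper69_Eng.Sbr
import Pool.Agent.Helper71_Eng.T3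
import Pool.Agent.Helper71_Eng.T8
import Pool.Agent.Helper81_Eng.Main
import Pool.Agent.Helper94_Eng.UR
import Pool.Agent.Helper94_Eng.Uni

/-! Squad ENG: assembly of the modules (symplectic groups). -/

set_option autoImplicit false

namespace Pool.Agent.Eng

theorem a_ab : AbStmt := H53.fab
theorem a_gh : GHStmt := H47.fgh a_ab
theorem a_br : BraidStmt := H53.fbr
theorem a_fig : FigStmt := H53.ffig
theorem a_lift : LiftStmt := H9.flift
theorem a_sbas : SymBasisStmt := H39.sbas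
theorem a_str : SpTransStmt := H39.str a_sbas
theorem a_scen : SpCenterStmt := H9.scen
theorem a_scm : SpCenterMatStmt := H9.scm
theorem a_sbr : SpBraidStmt := H69.sbr a_br a_scen a_str H18.pdInj
theorem a_sab : SpAbStmt := H6.sab a_ab a_str a_scen
theorem a_smon : SpMonoStmt := H54.smon H18.pdCen a_scm
theorem a_sbc : SpBcStmt := H69.sbc H18.pdCen a_scm
theorem a_ssl : SpSlStmt := H40.ssl H18.pdCen a_scm
theorem a_ur : Sl2RingStmt := H94.ur a_sbr
theorem a_uni : UniStmt := H94.uni a_ur H12.ub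
theorem a_esp : EspStmt := H1.esp a_ur H47.eb
theorem a_t3 : T3Stmt := H71.t3 a_ab a_scm
theorem a_t8 : T8Stmt := H71.t8 a_ab a_scm
theorem a_tfe : TfeStmt := H7.tfe a_sab
theorem a_tsp : TspStmt := H42.tsp a_t8 H54.tnt a_tfe a_sbc a_smon
theorem a_dev : DevStmt := H1.dev H4.dns a_sab a_smon
theorem a_dgl : DglStmt := H7.dgl a_gh a_scm
theorem a_gtw : GtwStmt := H4.gtw H4.gex H4.grt H4.ghx a_scm
theorem a_dtw : DtwStmt := H6.dtw a_lift a_gtw a_dgl a_dev
theorem a_god : GodStmt := H12.god H4.gex H4.grt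
theorem mainSp : MainSpStmt :=
  H81.msp H18.fexp a_lift H4.gun a_uni a_tsp a_dtw a_god a_esp a_t3 a_sbc a_smon

end Pool.Agent.Eng
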