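import Mathlib

/-!
# Squad ENG (MP_da8eb3_al): exponent of a finite simple group and its Engel period

Target: for every finite field `F`,
* `exp (PSL(n,F))` divides `d (PSL(n,F))` for all `n ≥ 3`,
* `exp (PSp(2n,F))` divides `d (PSp(2n,F))` for all `n ≥ 2`.
-/

set_option autoImplicit false

namespace Pool.Agent.Eng

/-- The Engel map `x ↦ [x,y] = x⁻¹ y⁻¹ x y`. -/
def eng {G : Type} [Group G] (y x : G) : G := x⁻¹ * y⁻¹ * x * y

/-- `G` satisfies the law `[x,_r y] = [x,_{r+d} y]` for some `r`. -/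
def Law (G : Type) [Group G] (d : ℕ) : Prop :=
  ∃ r : ℕ, ∀ x y : G, (eng y)^[r] x = (eng y)^[r + d] x

/-- `N` divides every Engel period of `G`. -/
def PD (G : Type) [Group G] (N : ℕ) : Prop :=
  ∀ d : ℕ, 0 < d → Law G d → N ∣ d

/-- The symplectic group `Sp(2n,F)` of Mathlib. -/
abbrev Sp (n : ℕ) (F : Type) [Field F] : Type := ↥(Matrix.symplecticGroup (Fin n) F)

/-- The projective symplectic group. -/
abbrev PSp (n : ℕ) (F : Type) [Field F] : Type := Sp n F ⧸ Subgroup.center (Sp n F)

/-- The projective special linear group (of Mathlib). -/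
abbrev PSL (n : ℕ) (F : Type) [Field F] : Type :=
  Matrix.ProjectiveSpecialLinearGroup (Fin n) F

section
variable {F V : Type} [Field F] [AddCommGroup V] [Module F V]

/-- The isometry group of a bilinear form. -/
def SpV (ω : V →ₗ[F] V →ₗ[F] F) : Subgroup (V ≃ₗ[F] V) where
  carrier := {g | ∀ u v, ω (g u) (g v) = ω u v}
  mul_mem' := by
    intro a b ha hb u v
    change ω (a (b u)) (a (b v)) = ω u v
    rw [ha, hb]
  one_mem' := by
    intro u v
    rfl
  inv_mem' := by
    intro a ha u v
    change ω (a.symm u) (a.symm v) = ω u v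
    have := ha (a.symm u) (a.symm v)
    simpa using this.symm

/-- Alternating and nondegenerate. -/
def IsSymp (ω : V →ₗ[F] V →ₗ[F] F) : Prop :=
  (∀ v, ω v v = 0) ∧ (∀ u, (∀ v, ω u v = 0) → u = 0)

/-- Multiplication by the scalar `c`. -/
def IsScal (g : V ≃ₗ[F] V) : Prop := ∃ c : F, ∀ v, g v = c • v

variable (F V) in
/-- `SL(V)` modulo its center. -/
abbrev PSLV : Type := SpecialLinearGroup F V ⧸ Subgroup.center (SpecialLinearGroup F V)

end

end Pool.Agent.Eng
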