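import Pool.Agent.Helper6_Eng.Defs

/-! Squad ENG: from `PD G (exponent G)` to the wording of the problem. -/

set_option autoImplicit false

namespace Pool.Agent.Eng

theorem pd_final {G : Type} [Group G] (h : PD G (Monoid.exponent G)) (d : ℕ)
    (hd : IsLeast {n : ℕ | 0 < n ∧ ∃ r : ℕ, ∀ x y : G,
      (fun z : G => z⁻¹ * y⁻¹ * z * y)^[r] x = (fun z : G => z⁻¹ * y⁻¹ * z * y)^[r + n] x} d) :
    Monoid.exponent G ∣ d :=
  h d hd.1.1 hd.1.2

end Pool.Agent.Eng
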