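import Pool.Agent.Helper6_Eng.Defs

/-!
# Squad ENG: statements of all modules.  Proofs on paper: /team-store/PLAN_ENG.md
-/

set_option autoImplicit false

namespace Pool.Agent.Eng

open Matrix

/-! ## Part F : abstract group theory -/

/-- FEXP -/
def PdExpStmt : Prop := ∀ (G : Type) [Group G] [Finite G],
  (∀ p k : ℕ, p.Prime → 1 ≤ k → (∃ y : G, orderOf y = p ^ k) → PD G (p ^ k)) →
  PD G (Monoid.exponent G)

/-- FINJ -/
def PdInjStmt : Prop := ∀ (H G : Type) [Group H] [Group G] (f : H →* G) (N : ℕ),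
  Function.Injective f → PD H N → PD G N

/-- FINJ -/
def PdSurjStmt : Prop := ∀ (G Q : Type) [Group G] [Group Q] (f : G →* Q) (N : ℕ),
  Function.Surjective f → PD Q N → PD G N

/-- FINJ: a homomorphism `f : H → G` such that `f⁻¹(Y) ≤ Z`. -/
def PdCenStmt : Prop := ∀ (H G : Type) [Group H] [Group G] (f : H →* G)
  (Z : Subgroup H) [Z.Normal] (Y : Subgroup G) [Y.Normal] (N : ℕ),
  (∀ h, f h ∈ Y → h ∈ Z) → PD (H ⧸ Z) N → PD (G ⧸ Y) N

/-- FBR: the braid trick. -/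
def BraidStmt : Prop := ∀ (G : Type) [Group G] (Z : Subgroup G) [Z.Normal] (w z : G) (N : ℕ),
  z * w * z = w * z * w →
  (∀ d : ℕ, 0 < d → z * w ^ (2 * d) * z⁻¹ * (w ^ (2 * d))⁻¹ ∈ Z → N ∣ d) → PD (G ⧸ Z) N

/-- FFIG: the figure eight trick. -/
def FigStmt : Prop := ∀ (G : Type) [Group G] (Z : Subgroup G) [Z.Normal] (x y : G) (N : ℕ),
  eng y (eng y x) = y⁻¹ * x * y →
  (∀ d : ℕ, 0 < d → x * y ^ d * x⁻¹ * (y ^ d)⁻¹ ∈ Z → N ∣ d) → PD (G ⧸ Z) N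

/-- FAB: an abelian subgroup `f(M)` normalised by `y`. -/
def AbStmt : Prop := ∀ (G : Type) [Group G] (Z : Subgroup G) [Z.Normal] (M : Type)
  [AddCommGroup M] (f : Multiplicative M →* G) (y : G) (T : AddMonoid.End M),
  (∀ m : M, f (Multiplicative.ofAdd m) ∈ Z → m = 0) →
  (∀ m : M, y⁻¹ * f (Multiplicative.ofAdd m) * y = f (Multiplicative.ofAdd (T m))) →
  ∀ d : ℕ, Law (G ⧸ Z) d → ∃ r : ℕ, (T - 1) ^ (r + d) = (T - 1) ^ r

/-- FGH: the trick of Gupta and Heineken (apply FAB to `y` and `y⁻¹`). -/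
def GHStmt : Prop := ∀ (G : Type) [Group G] (Z : Subgroup G) [Z.Normal] (M : Type)
  [AddCommGroup M] [Finite M] (f : Multiplicative M →* G) (y : G) (T : AddMonoid.End M) (n : ℕ),
  (∀ m : M, f (Multiplicative.ofAdd m) ∈ Z → m = 0) →
  (∀ m : M, y⁻¹ * f (Multiplicative.ofAdd m) * y = f (Multiplicative.ofAdd (T m))) →
  T ^ n = 1 → Nat.Coprime n (Nat.card M) →
  ∀ d : ℕ, Law (G ⧸ Z) d → T ^ (2 * d) = 1 ∧ (Even d → T ^ d = 1)

/-- FLIFT: elements of prime power order of `G/Z` lift to elements of prime power order. -/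
def LiftStmt : Prop := ∀ (G : Type) [Group G] [Finite G] (Z : Subgroup G) [Z.Normal]
  (p k : ℕ), p.Prime → (∃ y : G ⧸ Z, orderOf y = p ^ k) →
  ∃ (g : G) (c : ℕ), orderOf g = p ^ c ∧ orderOf (QuotientGroup.mk g : G ⧸ Z) = p ^ k

/-! ## Part S : symplectic groups -/

/-- SBAS: symplectic bases exist. -/
def SymBasisStmt : Prop := ∀ (F V : Type) [Field F] [AddCommGroup V] [Module F V]
  [FiniteDimensional F V] (ω : V →ₗ[F] V →ₗ[F] F) (n : ℕ), IsSymp ω →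
  Module.finrank F V = 2 * n →
  ∃ e : V ≃ₗ[F] (Fin n ⊕ Fin n → F), ∀ u v, ω u v = (e u) ⬝ᵥ ((J (Fin n) F) *ᵥ (e v))

/-- STR: transfer to the group of Mathlib. -/
def SpTransStmt : Prop := ∀ (F V : Type) [Field F] [AddCommGroup V] [Module F V]
  [FiniteDimensional F V] (ω : V →ₗ[F] V →ₗ[F] F) (n : ℕ), IsSymp ω →
  Module.finrank F V = 2 * n → Nonempty (↥(SpV ω) ≃* Sp n F)

/-- SCEN: central isometries are scalars. -/
def SpCenterStmt : Prop := ∀ (F V : Type) [Field F] [AddCommGroup V] [Module F V]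
  [FiniteDimensional F V] (ω : V →ₗ[F] V →ₗ[F] F), IsSymp ω →
  ∀ g : ↥(SpV ω), g ∈ Subgroup.center ↥(SpV ω) → IsScal (g : V ≃ₗ[F] V)

/-- SBR: braid criterion for `PSp`. -/
def SpBraidStmt : Prop := ∀ (F V : Type) [Field F] [AddCommGroup V] [Module F V]
  [FiniteDimensional F V] (ω : V →ₗ[F] V →ₗ[F] F) (n N : ℕ), IsSymp ω →
  Module.finrank F V = 2 * n → ∀ w z : V ≃ₗ[F] V, w ∈ SpV ω → z ∈ SpV ω →
  z * w * z = w * z * w →
  (∀ (d : ℕ) (c : F), 0 < d → (∀ v, z ((w ^ (2 * d)) v) = c • (w ^ (2 * d)) (z v)) → N ∣ d) →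
  PD (PSp n F) N

/-- SAB: abelian subgroup criterion for `PSp`. -/
def SpAbStmt : Prop := ∀ (F V : Type) [Field F] [AddCommGroup V] [Module F V]
  [FiniteDimensional F V] (ω : V →ₗ[F] V →ₗ[F] F) (n : ℕ), IsSymp ω →
  Module.finrank F V = 2 * n → ∀ (M : Type) [AddCommGroup M]
  (f : Multiplicative M →* (V ≃ₗ[F] V)) (y : V ≃ₗ[F] V) (T : AddMonoid.End M),
  (∀ m, f m ∈ SpV ω) → y ∈ SpV ω →
  (∀ m : M, IsScal (f (Multiplicative.ofAdd m)) → m = 0) →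
  (∀ m : M, y⁻¹ * f (Multiplicative.ofAdd m) * y = f (Multiplicative.ofAdd (T m))) →
  ∀ d : ℕ, Law (PSp n F) d → ∃ r : ℕ, (T - 1) ^ (r + d) = (T - 1) ^ r

/-- SCM: the center of `Sp(2n,F)` consists of `1` and `-1`. -/
def SpCenterMatStmt : Prop := ∀ (F : Type) [Field F] (n : ℕ) (g : Sp n F),
  g ∈ Subgroup.center (Sp n F) ↔ ((g : Matrix (Fin n ⊕ Fin n) (Fin n ⊕ Fin n) F) = 1 ∨
    (g : Matrix (Fin n ⊕ Fin n) (Fin n ⊕ Fin n) F) = -1)

/-- SMON -/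
def SpMonoStmt : Prop := ∀ (F : Type) [Field F] (m n N : ℕ), m ≤ n → PD (PSp m F) N →
  PD (PSp n F) N

/-- SBC -/
def SpBcStmt : Prop := ∀ (k F : Type) [Field k] [Field F] [Algebra k F] (n N : ℕ),
  PD (PSp n k) N → PD (PSp n F) N

/-- SSL -/
def SpSlStmt : Prop := ∀ (F : Type) [Field F] (m n N : ℕ), 1 ≤ m → 2 * m ≤ n →
  PD (PSp m F) N → PD (PSL n F) N

/-! ## Part U : `SL₂` of a ring -/

/-- UR: `SL₂(R)` acts on `R²` preserving `φ ∘ det`. -/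
def Sl2RingStmt : Prop := ∀ (F R : Type) [Field F] [CommRing R] [Algebra F R]
  [FiniteDimensional F R] (φ : R →ₗ[F] F) (m N : ℕ), Module.finrank F R = m →
  (∀ u : R, (∀ v : R, φ (u * v) = 0) → u = 0) →
  ∀ w z : SpecialLinearGroup (Fin 2) R, z * w * z = w * z * w →
  (∀ (d : ℕ) (c : F), 0 < d →
    (z : Matrix (Fin 2) (Fin 2) R) * (w : Matrix (Fin 2) (Fin 2) R) ^ (2 * d) =
      c • ((w : Matrix (Fin 2) (Fin 2) R) ^ (2 * d) * (z : Matrix (Fin 2) (Fin 2) R)) → N ∣ d) →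
  PD (PSp m F) N

/-- UB: explicit braid pair with `(w-1)² = ε w`, `ε = η v²`, `v = (1-η)⁻¹`. -/
def Sl2EpsStmt : Prop := ∀ (R : Type) [CommRing R] (η v u : R), (1 - η) * v = 1 →
  (1 + η) * u = 1 → ∃ w z : SpecialLinearGroup (Fin 2) R,
    (w : Matrix (Fin 2) (Fin 2) R) = !![1, 1; η * v ^ 2, 1 + η * v ^ 2] ∧
    z * w * z = w * z * w ∧
    ∀ n : ℕ, w ^ n * z = z * w ^ n →
      ∃ a : R, (w : Matrix (Fin 2) (Fin 2) R) ^ n = a • (1 : Matrix (Fin 2) (Fin 2) R)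

/-- UNI: unipotent elements in odd characteristic. -/
def UniStmt : Prop := ∀ (F : Type) [Field F] [Finite F] (p m k : ℕ) [CharP F p], p.Prime →
  p ≠ 2 → 1 ≤ m → 1 ≤ k → p ^ (k - 1) < 2 * m → PD (PSp m F) (p ^ k)

/-- EB: braid pairs in `SL₂(K)`, `K` finite. -/
def Sl2FinStmt : Prop := ∀ (K : Type) [Field K] [Finite K] (p k : ℕ), p.Prime → p ≠ 2 → 1 ≤ k →
  (p ^ k ∣ Nat.card K - 1 ∨ p ^ k ∣ Nat.card K + 1) → ¬ (p ^ k = 3 ∧ (2 : K) = 0) →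
  ∃ w z : SpecialLinearGroup (Fin 2) K, z * w * z = w * z * w ∧ orderOf w = p ^ k ∧
    ∀ n : ℕ, w ^ n * z = z * w ^ n →
      ∃ a : K, (w : Matrix (Fin 2) (Fin 2) K) ^ n = a • (1 : Matrix (Fin 2) (Fin 2) K)

/-- ESP: semisimple elements of odd prime power order. -/
def EspStmt : Prop := ∀ (F : Type) [Field F] [Finite F] (p k i : ℕ), p.Prime → p ≠ 2 → 1 ≤ k →
  1 ≤ i → (p ^ k ∣ Nat.card F ^ i - 1 ∨ p ^ k ∣ Nat.card F ^ i + 1) →
  ¬ (p ^ k = 3 ∧ (2 : F) = 0) → PD (PSp i F) (p ^ k)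

/-! ## Part T : characteristic 2 -/

/-- T3: `PD (PSp 2 (ZMod 2)) 3` (a group A₄). -/
def T3Stmt : Prop := PD (PSp 2 (ZMod 2)) 3

/-- T8: `PD (PSp 2 (ZMod 2)) 8` (a group 3²:4). -/
def T8Stmt : Prop := PD (PSp 2 (ZMod 2)) 8

/-- TNT: number theory of Fermat numbers. -/
def TntStmt : Prop := ∀ t : ℕ, 2 ≤ t → ∃ P : ℕ, P.Prime ∧ P ∣ 2 ^ (2 ^ t) + 1 ∧
  ∀ d : ℕ, 0 < d → (3 : ZMod P) ^ d = 1 → 2 ^ (t + 2) ∣ d

/-- TFE: the group `C_P : ⟨σ²⟩` inside `Sp(2^(t+1), 2)`. -/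
def TfeStmt : Prop := ∀ (t P N : ℕ), 1 ≤ t → P.Prime → P ∣ 2 ^ (2 ^ t) + 1 →
  (∀ d : ℕ, 0 < d → (3 : ZMod P) ^ d = 1 → N ∣ d) → PD (PSp (2 ^ t) (ZMod 2)) N

/-- TSP: the 2-part in characteristic 2. -/
def TspStmt : Prop := ∀ (F : Type) [Field F] [Finite F] [CharP F 2] (m k : ℕ), 2 ≤ m → 1 ≤ k →
  2 ^ (k - 1) ≤ 2 * m → PD (PSp m F) (2 ^ k)

/-! ## Part D : the 2-part in odd characteristic, symplectic -/

/-- DNS: a square `s` with `s - 1` not a square. -/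
def DnsStmt : Prop := ∀ (F : Type) [Field F] [Finite F], (2 : F) ≠ 0 → 5 ≤ Nat.card F →
  ∃ t : F, t ≠ 0 ∧ ¬ IsSquare (t ^ 2 - 1)

/-- DEV: `d(PSp(2n,q))` is even for `n ≥ 2`, `q` odd. -/
def DevStmt : Prop := ∀ (F : Type) [Field F] [Finite F] (n : ℕ), (2 : F) ≠ 0 → 2 ≤ n →
  PD (PSp n F) 2

/-- DGL: the Levi subgroup `GL(n,q)` acts on symmetric matrices. -/
def DglStmt : Prop := ∀ (F : Type) [Field F] [Finite F] (n e : ℕ), (2 : F) ≠ 0 → 1 ≤ n →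
  ∀ g : GL (Fin n) F, g ^ e = 1 → Nat.Coprime e (Nat.card F) →
  ∀ d : ℕ, Law (PSp n F) d → Even d → g ^ d = 1 ∨ (g ^ d : GL (Fin n) F) = -1

/-- DTW: the 2-part for `PSp`, `q` odd. -/
def DtwStmt : Prop := ∀ (F : Type) [Field F] [Finite F] (n k : ℕ), (2 : F) ≠ 0 → 2 ≤ n →
  (∃ y : PSp n F, orderOf y = 2 ^ k) → PD (PSp n F) (2 ^ k)

/-! ## Part G : orders of elements -/

/-- GUN: unipotent matrices. -/
def GunStmt : Prop := ∀ (F ι : Type) [Field F] [Fintype ι] [DecidableEq ι] (p : ℕ) [CharP F p]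
  (A : Matrix ι ι F) (c b : ℕ), p.Prime → A ^ (p ^ c) = 1 → Fintype.card ι ≤ p ^ b →
  A ^ (p ^ b) = 1

/-- `lam` is an eigenvalue of the matrix `A` in the algebraic closure. -/
def Eig {F ι : Type} [Field F] [Fintype ι] [DecidableEq ι] (A : Matrix ι ι F)
    (lam : AlgebraicClosure F) : Prop := Polynomial.aeval lam A.charpoly = 0

/-- GEX: semisimple matrices are determined by their eigenvalues. -/
def GexStmt : Prop := ∀ (F ι : Type) [Field F] [Fintype ι] [DecidableEq ι] (A : Matrix ι ι F)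
  (N e : ℕ) (a : F), (N : F) ≠ 0 → A ^ N = 1 →
  (∀ lam : AlgebraicClosure F, Eig A lam → lam ^ e = algebraMap F (AlgebraicClosure F) a) →
  A ^ e = a • (1 : Matrix ι ι F)

/-- GRT: eigenvalues of symplectic matrices. -/
def GrtStmt : Prop := ∀ (F : Type) [Field F] [Finite F] (n : ℕ) (g : Sp n F)
  (lam : AlgebraicClosure F), Eig (g : Matrix (Fin n ⊕ Fin n) (Fin n ⊕ Fin n) F) lam →
  lam ≠ 0 ∧ Eig (g : Matrix (Fin n ⊕ Fin n) (Fin n ⊕ Fin n) F) lam⁻¹ ∧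
    Eig (g : Matrix (Fin n ⊕ Fin n) (Fin n ⊕ Fin n) F) (lam ^ Nat.card F)

/-- GHX: the elements `(x, 1)` of `GL_e × GL_{n-e}`, `x ∈ F_{q^e}`. -/
def GhxStmt : Prop := ∀ (F : Type) [Field F] [Finite F] (e n N : ℕ), (2 : F) ≠ 0 → 1 ≤ e →
  e ≤ n → N ∣ Nat.card F ^ e - 1 → ∃ h : GL (Fin n) F, h ^ N = 1 ∧
    ∀ d : ℕ, (h ^ d = 1 ∨ (h ^ d : GL (Fin n) F) = -1) → N ∣ 2 * d ∧ (e < n → N ∣ d)

/-- GOD: odd order elements of `Sp(2n,q)`. -/
def GodStmt : Prop := ∀ (F : Type) [Field F] [Finite F] (p c n : ℕ) (g : Sp n F), p.Prime →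
  p ≠ 2 → (p : F) ≠ 0 → 1 ≤ c → orderOf g = p ^ c →
  ∃ i : ℕ, 1 ≤ i ∧ i ≤ n ∧ (p ^ c ∣ Nat.card F ^ i - 1 ∨ p ^ c ∣ Nat.card F ^ i + 1)

/-- GTW: 2-elements of `Sp(2n,q)`, `q` odd: there is `h ∈ GL(n,q)` such that
`h^d = ±1` forces `g^d = ±1` for even `d`. -/
def GtwStmt : Prop := ∀ (F : Type) [Field F] [Finite F] (c k n : ℕ) (g : Sp n F), (2 : F) ≠ 0 →
  2 ≤ n → orderOf g = 2 ^ c → orderOf (QuotientGroup.mk g : PSp n F) = 2 ^ k →
  ∃ (h : GL (Fin n) F) (e : ℕ), h ^ (2 ^ e) = 1 ∧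
    ∀ d : ℕ, 0 < d → Even d → (h ^ d = 1 ∨ (h ^ d : GL (Fin n) F) = -1) → 2 ^ k ∣ d

/-! ## Part L : linear groups -/

/-- LTR: transfer. -/
def LtrStmt : Prop := ∀ (F V : Type) [Field F] [AddCommGroup V] [Module F V]
  [FiniteDimensional F V] (n : ℕ), Module.finrank F V = n → Nonempty (PSLV F V ≃* PSL n F)

/-- LSS: invariant complements. -/
def LssStmt : Prop := ∀ (F V : Type) [Field F] [AddCommGroup V] [Module F V]
  [FiniteDimensional F V] (g : V →ₗ[F] V) (e : ℕ) (c : F), (e : F) ≠ 0 → c ≠ 0 →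
  g ^ e = c • (1 : V →ₗ[F] V) → ∀ W : Submodule F V, (∀ x ∈ W, g x ∈ W) →
  ∃ W' : Submodule F V, (∀ x ∈ W', g x ∈ W') ∧ IsCompl W W'

/-- LRE: reducible semisimple elements. -/
def LreStmt : Prop := ∀ (F V : Type) [Field F] [Finite F] [AddCommGroup V] [Module F V]
  [FiniteDimensional F V] (g : SpecialLinearGroup F V) (W W' : Submodule F V) (e : ℕ) (c : F),
  W ≠ ⊥ → W' ≠ ⊥ → IsCompl W W' → (∀ x ∈ W, g x ∈ W) → (∀ x ∈ W', g x ∈ W') →
  Nat.Coprime e (Nat.card F) → (∀ v, (g ^ e : SpecialLinearGroup F V) v = c • v) →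
  ∀ d : ℕ, Law (PSLV F V) d →
    (∃ a : F, ∀ v, (g ^ (2 * d) : SpecialLinearGroup F V) v = a • v) ∧
    (Even d → ∃ a : F, ∀ v, (g ^ d : SpecialLinearGroup F V) v = a • v)

/-- LIR: irreducible elements are multiplications in a field. -/
def LirStmt : Prop := ∀ (F V : Type) [Field F] [Finite F] [AddCommGroup V] [Module F V]
  [FiniteDimensional F V] [Nontrivial V] (g : V →ₗ[F] V),
  (∀ W : Submodule F V, (∀ x ∈ W, g x ∈ W) → W = ⊥ ∨ W = ⊤) →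
  ∃ (K : Type) (_ : Field K) (_ : Algebra F K) (_ : FiniteDimensional F K) (lam : K)
    (e : V ≃ₗ[F] K), Algebra.adjoin F {lam} = ⊤ ∧ ∀ v, e (g v) = lam * e v

/-- The functional of the rigid family. -/
noncomputable def ell {ι K : Type} [Fintype ι] [DecidableEq ι] [Field K] (m : ℕ) (lam : ι → K)
    (j : ι) : K :=
  (lam j + (lam j)⁻¹ + (-1) ^ m) *
    ∏ k ∈ Finset.univ.erase j, (1 + lam j * lam k) / (lam j - lam k)

/-- The matrix `b` of the rigid family. -/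
noncomputable def bmat {ι K : Type} [Fintype ι] [DecidableEq ι] [Field K] (m : ℕ)
    (lam : ι → K) : Matrix ι ι K :=
  fun i j => (ell m lam j - if i = j then 1 else 0) / (1 + lam i * lam j)

/-- LPF: partial fractions. -/
def LpfStmt : Prop := ∀ (ι K : Type) [Fintype ι] [DecidableEq ι] [Field K] (m : ℕ)
  (lam : ι → K), Fintype.card ι = 2 * m + 1 → Function.Injective lam → ∏ i, lam i = 1 →
  (∀ i j, 1 + lam i * lam j ≠ 0) →
  (∀ i, ∑ j, ell m lam j / (1 + lam i * lam j) = 1 + 1 / (1 + lam i * lam i)) ∧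
  ∑ j, ell m lam j = 3

/-- LBM: `b² = Λ b Λ`. -/
def LbmStmt : Prop := ∀ (ι K : Type) [Fintype ι] [DecidableEq ι] [Field K] (m : ℕ)
  (lam : ι → K), Fintype.card ι = 2 * m + 1 → 1 ≤ m → Function.Injective lam →
  ∏ i, lam i = 1 → (∀ i j, 1 + lam i * lam j ≠ 0) → (∀ j, ell m lam j ≠ 0) →
  bmat m lam * bmat m lam = Matrix.diagonal lam * bmat m lam * Matrix.diagonal lam

/-- The conjugates of `lam`. -/
noncomputable def cj (F K : Type) [Field F] [Field K] (n : ℕ) (lam : K) : ZMod n → K :=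
  fun i => lam ^ (Nat.card F ^ i.val)

/-- LRA: the genericity conditions hold for generators of `F_{q^n}` of norm 1, `n` odd. -/
def LraStmt : Prop := ∀ (F K : Type) [Field F] [Finite F] [Field K] [Algebra F K]
  [FiniteDimensional F K] (m : ℕ) (lam : K), 1 ≤ m → Module.finrank F K = 2 * m + 1 →
  Algebra.adjoin F {lam} = ⊤ → Algebra.norm F lam = 1 →
  Function.Injective (cj F K (2 * m + 1) lam) ∧ ∏ i, cj F K (2 * m + 1) lam i = 1 ∧
  (∀ i j, 1 + cj F K (2 * m + 1) lam i * cj F K (2 * m + 1) lam j ≠ 0) ∧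
  (∀ j, ell m (cj F K (2 * m + 1) lam) j ≠ 0)

/-- LRK: the operator `b` on `K = F_{q^n}`, `n` odd. -/
def LrkStmt : Prop := ∀ (F K : Type) [Field F] [Finite F] [Field K] [Algebra F K]
  [FiniteDimensional F K] (m : ℕ) (lam : K), 1 ≤ m → Module.finrank F K = 2 * m + 1 →
  Algebra.adjoin F {lam} = ⊤ → Algebra.norm F lam = 1 →
  ∃ b : K →ₗ[F] K, (∀ x, b (b x) = lam * b (lam * x)) ∧ (∀ x, b x = 0 → x = 0) ∧
    ∀ (μ : K) (c : F), (∀ x, b (μ * x) = c • (μ * b x)) → ∃ a : F, μ = algebraMap F K a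

/-- LRI: irreducible elements, `n` odd. -/
def LriStmt : Prop := ∀ (F K : Type) [Field F] [Finite F] [Field K] [Algebra F K]
  [FiniteDimensional F K] (m p k : ℕ) (lam : K), 1 ≤ m → Module.finrank F K = 2 * m + 1 →
  Algebra.adjoin F {lam} = ⊤ → Algebra.norm F lam = 1 → p.Prime → p ≠ 2 →
  (∀ d : ℕ, (∃ a : F, lam ^ d = algebraMap F K a) → p ^ k ∣ d) →
  PD (PSL (2 * m + 1) F) (p ^ k)

/-- LIE: irreducible `p`-elements, `n` even: numerical part. -/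
def LieStmt : Prop := ∀ (F K : Type) [Field F] [Finite F] [Field K] [Algebra F K]
  [FiniteDimensional F K] (m p c : ℕ) (lam : K), 2 ≤ m → Module.finrank F K = 2 * m →
  Algebra.adjoin F {lam} = ⊤ → p.Prime → p ≠ 2 → orderOf lam = p ^ c →
  p ^ c ∣ Nat.card F ^ m + 1 ∧ ¬ (p ^ c = 3 ∧ (2 : F) = 0)

/-- LEV: `d(PSL(n,q))` is even, `n ≥ 3`, `q` odd. -/
def LevStmt : Prop := ∀ (F : Type) [Field F] [Finite F] (n : ℕ), (2 : F) ≠ 0 → 3 ≤ n →
  PD (PSL n F) 2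

/-- LTN: irreducible 2-elements, numerical part. -/
def LtnStmt : Prop := ∀ (F K : Type) [Field F] [Finite F] [Field K] [Algebra F K]
  [FiniteDimensional F K] (n c k : ℕ) (lam : K), (2 : F) ≠ 0 → 3 ≤ n →
  Module.finrank F K = n → Algebra.adjoin F {lam} = ⊤ → Algebra.norm F lam = 1 →
  orderOf lam = 2 ^ c → (∀ d : ℕ, 0 < d → (∃ a : F, lam ^ d = algebraMap F K a) → 2 ^ k ∣ d) →
  ∃ m : ℕ, n = 2 * m ∧ 2 ≤ m ∧ 2 ^ k ∣ (Nat.card F ^ m - 1) / (Nat.card F - 1)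

/-- LTM: the elements `(μ, 1)` of `GL_m × GL_m`. -/
def LtmStmt : Prop := ∀ (F : Type) [Field F] [Finite F] (m N : ℕ), (2 : F) ≠ 0 → 2 ≤ m →
  N ∣ (Nat.card F ^ m - 1) / (Nat.card F - 1) → PD (PSL (2 * m) F) N

/-- LS3: `SL(3,2)`. -/
def Ls3Stmt : Prop := PD (PSL 3 (ZMod 2)) 4

/-- LBC: base change for `PSL`. -/
def LbcStmt : Prop := ∀ (k F : Type) [Field k] [Field F] [Algebra k F] (n N : ℕ),
  PD (PSL n k) N → PD (PSL n F) N

/-- LODD: odd `p`, not the characteristic. -/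
def LoddStmt : Prop := ∀ (F : Type) [Field F] [Finite F] (n p k : ℕ), 3 ≤ n → p.Prime →
  p ≠ 2 → (p : F) ≠ 0 → (∃ y : PSL n F, orderOf y = p ^ k) → PD (PSL n F) (p ^ k)

/-- LTWO: `p = 2`, `q` odd. -/
def LtwoStmt : Prop := ∀ (F : Type) [Field F] [Finite F] (n k : ℕ), 3 ≤ n → (2 : F) ≠ 0 →
  (∃ y : PSL n F, orderOf y = 2 ^ k) → PD (PSL n F) (2 ^ k)

/-! ## Final statements -/

/-- MSP -/
def MainSpStmt : Prop := ∀ (F : Type) [Field F] [Finite F] (n : ℕ), 2 ≤ n →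
  PD (PSp n F) (Monoid.exponent (PSp n F))

/-- MSL -/
def MainSlStmt : Prop := ∀ (F : Type) [Field F] [Finite F] (n : ℕ), 3 ≤ n →
  PD (PSL n F) (Monoid.exponent (PSL n F))

end Pool.Agent.Eng
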